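import Mathlib

/-!
# Connected restrictions of binary matroids (MP_0dc42e_co, Q1)
-/

set_option autoImplicit false

namespace Pool.Agent.Results.MP_0dc42e_co.ConnectedRestrictions

open scoped Classical
open Set

/-- `M` is binary: it is represented by vectors over the field with two elements. -/
def Binary {α : Type} (M : Matroid α) : Prop :=
  ∃ (ι : Type) (v : α → ι → ZMod 2), ∀ I : Set α,
    M.Indep I ↔ I ⊆ M.E ∧ LinearIndepOn (ZMod 2) v I

/-- The characteristic vector of a set of elements. -/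
noncomputable def ind {α : Type} (C : Set α) : α → ZMod 2 := fun x => if x ∈ C then 1 else 0

/-- The cocycle space: the span over `GF(2)` of the characteristic vectors of the cocircuits. -/
noncomputable def cocycleSpace {α : Type} (M : Matroid α) : Submodule (ZMod 2) (α → ZMod 2) :=
  Submodule.span (ZMod 2) {f | ∃ C, M.IsCocircuit C ∧ f = ind C}

/-- The set of elements with a nonzero coordinate. -/
noncomputable def supp {α : Type} [Fintype α] (f : α → ZMod 2) : Finset α :=
  Finset.univ.filter fun x => f x ≠ 0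

/-- The invariant `Λ~(M)`: the least `L` such that the cocycle space has a basis all of whose
members have at most `L` elements. -/
noncomputable def lam {α : Type} [Fintype α] (M : Matroid α) : ℕ :=
  sInf {L : ℕ | ∃ (ι : Type) (b : Module.Basis ι (ZMod 2) (cocycleSpace M)),
    ∀ i, (supp (b i : α → ZMod 2)).card ≤ L}

/-- `M|S` is connected: every two elements of `S` lie in a common circuit of `M|S`. -/
def Conn {α : Type} (M : Matroid α) (S : Set α) : Prop :=
  ∀ x ∈ S, ∀ y ∈ S, x ≠ y → ∃ C, (M.restrict S).IsCircuit C ∧ x ∈ C ∧ y ∈ C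

/-- The number `N_k(M, e)` of connected restrictions of size `k` containing `e`. -/
noncomputable def Nk {α : Type} [Fintype α] (M : Matroid α) (e : α) (k : ℕ) : ℕ :=
  (Finset.univ.filter fun S : Finset α =>
    (S : Set α) ⊆ M.E ∧ e ∈ S ∧ S.card = k ∧ Conn M S).card

/-! ### circuits and cocycles -/

theorem circuit_sum {α : Type} [Fintype α] (M : Matroid α) {ι : Type} (v : α → ι → ZMod 2)
    (hv : ∀ I : Set α, M.Indep I ↔ I ⊆ M.E ∧ LinearIndepOn (ZMod 2) v I)
    (Z : Finset α) (hZ : M.IsCircuit (Z : Set α)) : ∑ z ∈ Z, v z = 0 := by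
  have hdep : ¬ LinearIndepOn (ZMod 2) v (Z : Set α) := by
    intro h
    exact hZ.not_indep ((hv _).2 ⟨hZ.subset_ground, h⟩)
  rw [linearIndepOn_finset_iff] at hdep
  push Not at hdep
  obtain ⟨g, hg, i, hiZ, hi⟩ := hdep
  have h2 : ∀ a : ZMod 2, a = 0 ∨ a = 1 := by decide
  have hT : M.IsCircuit (Z : Set α) → Z.filter (fun z => g z = 1) = Z := by
    intro _
    have hsub : ((Z.filter (fun z => g z = 1) : Finset α) : Set α) ⊆ Z := by
      intro x hx
      exact (Finset.mem_filter.1 hx).1
    have hnot : ¬ M.Indep ((Z.filter (fun z => g z = 1) : Finset α) : Set α) := by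
      intro hI
      have h3 := ((hv _).1 hI).2
      rw [linearIndepOn_finset_iff] at h3
      have h4 : ∑ z ∈ Z.filter (fun z => g z = 1), g z • v z = 0 := by
        rw [← hg, Finset.sum_filter]
        refine Finset.sum_congr rfl fun z _ => ?_
        rcases h2 (g z) with h | h
        · simp [h]
        · simp [h]
      have h5 := h3 g h4 i (Finset.mem_filter.2 ⟨hiZ, (h2 (g i)).resolve_left hi⟩)
      exact hi h5
    have := hZ.eq_of_not_indep_subset hnot hsub
    exact_mod_cast this
  have hT' := hT hZ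
  rw [← hg]
  refine Finset.sum_congr rfl fun z hz => ?_
  rw [← hT'] at hz
  rw [(Finset.mem_filter.1 hz).2, one_smul]

theorem cocircuit_functional {α : Type} (M : Matroid α) {ι : Type} (v : α → ι → ZMod 2)
    (hv : ∀ I : Set α, M.Indep I ↔ I ⊆ M.E ∧ LinearIndepOn (ZMod 2) v I)
    (C : Set α) (hC : M.IsCocircuit C) :
    ∃ φ : (ι → ZMod 2) →ₗ[ZMod 2] ZMod 2, ∀ x ∈ M.E, φ (v x) = ind C x := by
  have hCE : C ⊆ M.E := hC.subset_ground
  rw [Matroid.isCocircuit_iff_minimal_compl_nonspanning, minimal_iff_forall_ssubset] at hC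
  obtain ⟨hns, hmin⟩ := hC
  obtain ⟨I, hI⟩ := M.exists_isBasis (M.E \ C) sdiff_subset
  have hcl : ∀ c ∈ C, c ∉ M.closure (M.E \ C) := by
    intro c hc hcc
    have h1 := hmin (t := C \ {c}) (sdiff_singleton_ssubset.2 hc)
    rw [not_not] at h1
    apply hns
    rw [Matroid.spanning_iff_ground_subset_closure]
    have h2 : M.E \ (C \ {c}) ⊆ M.closure (M.E \ C) := by
      intro x hx
      by_cases hxC : x ∈ C
      · have : x = c := by
          by_contra hne
          exact hx.2 ⟨hxC, hne⟩
        rw [this]; exact hcc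
      · exact M.subset_closure (M.E \ C) sdiff_subset ⟨hx.1, hxC⟩
    have h3 := M.closure_subset_closure h2
    rw [Matroid.closure_closure, h1.closure_eq] at h3
    exact h3
  have hclI : M.closure I = M.closure (M.E \ C) := hI.closure_eq_closure
  have hIC : ∀ c ∈ C, c ∉ I := fun c hc hcI => (hI.subset hcI).2 hc
  have hins : ∀ c ∈ C, M.Indep (insert c I) := by
    intro c hc
    rw [hI.indep.insert_indep_iff]
    left
    exact ⟨hCE hc, by rw [hclI]; exact hcl c hc⟩
  have hspan : ∀ c ∈ C, M.closure (insert c I) = M.E := by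
    intro c hc
    have h1 := hmin (t := C \ {c}) (sdiff_singleton_ssubset.2 hc)
    rw [not_not] at h1
    have h2 : M.E \ (C \ {c}) ⊆ M.closure (insert c I) := by
      intro x hx
      by_cases hxC : x ∈ C
      · have : x = c := by
          by_contra hne
          exact hx.2 ⟨hxC, hne⟩
        rw [this]
        exact M.mem_closure_of_mem (mem_insert c I) (hins c hc).subset_ground
      · have h3 : x ∈ M.closure I := by
          rw [hclI]
          exact M.subset_closure (M.E \ C) sdiff_subset ⟨hx.1, hxC⟩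
        exact M.closure_subset_closure (subset_insert c I) h3
    have h3 := M.closure_subset_closure h2
    rw [Matroid.closure_closure, h1.closure_eq] at h3
    exact (M.closure_subset_ground _).antisymm h3
  -- linear translation of closure
  have hlin : ∀ J : Set α, M.Indep J → ∀ x ∈ M.closure J, v x ∈ Submodule.span (ZMod 2) (v '' J) := by
    intro J hJ x hx
    by_cases hxJ : x ∈ J
    · exact Submodule.subset_span (mem_image_of_mem v hxJ)
    · by_contra hcon
      have hxE : x ∈ M.E := M.mem_ground_of_mem_closure hx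
      have h1 : M.Indep (insert x J) := by
        rw [hv]
        refine ⟨insert_subset hxE hJ.subset_ground, ?_⟩
        rw [linearIndepOn_insert hxJ]
        exact ⟨((hv J).1 hJ).2, hcon⟩
      have h2 := (hJ.mem_closure_iff_of_notMem hxJ).1 hx
      exact h2.not_indep h1
  have hne : C.Nonempty := by
    by_contra h
    rw [not_nonempty_iff_eq_empty] at h
    apply hns
    rw [h, sdiff_empty]
    exact M.ground_spanning
  obtain ⟨c0, hc0⟩ := hne
  have hv0 : v c0 ∉ Submodule.span (ZMod 2) (v '' I) := by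
    have := ((hv _).1 (hins c0 hc0)).2
    rw [linearIndepOn_insert (hIC c0 hc0)] at this
    exact this.2
  obtain ⟨φ, hφ0, hφ⟩ := Submodule.exists_le_ker_of_notMem hv0
  have h2 : ∀ a : ZMod 2, a ≠ 0 → a = 1 := by decide
  have hφ1 : φ (v c0) = 1 := h2 _ hφ0
  refine ⟨φ, fun x hx => ?_⟩
  by_cases hxC : x ∈ C
  · have h3 : v x ∈ Submodule.span (ZMod 2) (v '' (insert c0 I)) :=
      hlin _ (hins c0 hc0) x (by rw [hspan c0 hc0]; exact hx)
    rw [image_insert_eq, Submodule.mem_span_insert] at h3
    obtain ⟨a, z, hz, hxz⟩ := h3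
    have h4 : v x ∉ Submodule.span (ZMod 2) (v '' I) := by
      have := ((hv _).1 (hins x hxC)).2
      rw [linearIndepOn_insert (hIC x hxC)] at this
      exact this.2
    have ha : a = 1 := by
      apply h2
      rintro rfl
      apply h4
      rw [hxz, zero_smul, zero_add]
      exact hz
    have hz0 : φ z = 0 := hφ hz
    rw [hxz, ha, map_add, one_smul, hφ1, hz0, add_zero]
    simp [ind, hxC]
  · have h3 : v x ∈ Submodule.span (ZMod 2) (v '' I) := by
      apply hlin I hI.indep
      rw [hclI]
      exact M.subset_closure (M.E \ C) sdiff_subset ⟨hx, hxC⟩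
    have h4 : φ (v x) = 0 := hφ h3
    rw [h4]
    simp [ind, hxC]

/-- A circuit meets every cocycle in an even number of elements. -/
theorem circuit_cocycle {α : Type} [Fintype α] (M : Matroid α) (hM : Binary M)
    (Z : Finset α) (hZ : M.IsCircuit (Z : Set α)) (f : α → ZMod 2) (hf : f ∈ cocycleSpace M) :
    ∑ z ∈ Z, f z = 0 := by
  obtain ⟨ι, v, hv⟩ := hM
  have hle : cocycleSpace M ≤ LinearMap.ker (∑ z ∈ Z, LinearMap.proj (R := ZMod 2)
      (φ := fun _ : α => ZMod 2) z) := by
    rw [cocycleSpace, Submodule.span_le]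
    rintro _ ⟨C, hC, rfl⟩
    obtain ⟨φ, hφ⟩ := cocircuit_functional M v hv C hC
    simp only [SetLike.mem_coe, LinearMap.mem_ker, LinearMap.sum_apply, LinearMap.proj_apply]
    rw [← Finset.sum_congr rfl (fun z hz => hφ z (hZ.subset_ground hz)), ← map_sum,
      circuit_sum M v hv Z hZ, map_zero]
  have := hle hf
  simpa only [LinearMap.mem_ker, LinearMap.sum_apply, LinearMap.proj_apply] using this

/-- A nonempty independent set meets some cocycle in an odd number of elements. -/
theorem exists_odd {α : Type} [Fintype α] (M : Matroid α) (Q : Finset α) (hQ : Q.Nonempty)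
    (hI : M.Indep (Q : Set α)) : ∃ f ∈ cocycleSpace M, ∑ z ∈ Q, f z = 1 := by
  obtain ⟨q, hq⟩ := hQ
  obtain ⟨B, hB, hQB⟩ := hI.exists_isBase_superset
  have hqB : q ∈ B := hQB hq
  refine ⟨ind (M.E \ M.closure (B \ {q})), Submodule.subset_span
    ⟨_, hB.compl_closure_sdiff_singleton_isCocircuit hqB, rfl⟩, ?_⟩
  rw [Finset.sum_eq_single q]
  · have h1 : q ∈ M.E \ M.closure (B \ {q}) := by
      refine ⟨hB.subset_ground hqB, ?_⟩
      exact hB.indep.notMem_closure_sdiff_of_mem hqB
    simp [ind, h1]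
  · intro b hb hbq
    have h1 : b ∉ M.E \ M.closure (B \ {q}) := by
      intro h
      apply h.2
      exact M.mem_closure_of_mem ⟨hQB hb, hbq⟩ (sdiff_subset.trans hB.subset_ground)
    simp [ind, h1]
  · intro h
    exact absurd hq h

/-! ### the count -/

/-- restriction of functions to a finite set -/
noncomputable def rho {α : Type} (K : Finset α) : (α → ZMod 2) →ₗ[ZMod 2] (K → ZMod 2) :=
  LinearMap.funLeft (ZMod 2) (ZMod 2) (fun x : K => (x : α))

/-- the members of size `k` containing `K` whose part outside `K` avoids the sets in `R` -/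
noncomputable def Fam {α : Type} [Fintype α] (M : Matroid α) (k : ℕ) (K : Finset α)
    (R : Finset (α → ZMod 2)) : Finset (Finset α) :=
  Finset.univ.filter fun S : Finset α => (S : Set α) ⊆ M.E ∧ K ⊆ S ∧ S.card = k ∧ Conn M S ∧
    ∀ D ∈ R, ∀ x ∈ S, D x ≠ 0 → x ∈ K

theorem card_le_of_indep {α : Type} [Fintype α] (K : Finset α) (R : Finset (α → ZMod 2))
    (hR : LinearIndepOn (ZMod 2) (rho K) (R : Set (α → ZMod 2))) : R.card ≤ K.card := by
  have h := hR.linearIndependent.fintype_card_le_finrank
  simpa using h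

theorem fam_subset {α : Type} [Fintype α] (M : Matroid α) (hM : Binary M)
    (𝓑 : Set (α → ZMod 2)) (h𝓑 : Submodule.span (ZMod 2) 𝓑 = cocycleSpace M) (k : ℕ)
    (K : Finset α) (hK : K.Nonempty) (R : Finset (α → ZMod 2)) (hR : (R : Set _) ⊆ 𝓑)
    (hcase : ∀ D ∈ 𝓑, rho K D ∈ Submodule.span (ZMod 2) (rho K '' (R : Set (α → ZMod 2)))) :
    Fam M k K R ⊆ {K} := by
  intro S hS
  rw [Fam, Finset.mem_filter] at hS
  obtain ⟨-, hSE, hKS, -, hconn, hdis⟩ := hS
  rw [Finset.mem_singleton]
  by_contra hne
  obtain ⟨y, hyS, hyK⟩ : ∃ y ∈ S, y ∉ K := by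
    by_contra hcon
    push Not at hcon
    exact hne (Finset.Subset.antisymm hcon hKS)
  obtain ⟨x, hxK⟩ := hK
  have hxy : x ≠ y := fun h => hyK (h ▸ hxK)
  obtain ⟨Z, hZ, hxZ, hyZ⟩ := hconn x (hKS hxK) y hyS hxy
  rw [Matroid.restrict_isCircuit_iff hSE] at hZ
  obtain ⟨hZc, hZS⟩ := hZ
  have hZfin : Z.Finite := toFinite Z
  obtain ⟨Z', rfl⟩ := hZfin.exists_finset_coe
  have hQne : (Z' ∩ K).Nonempty := ⟨x, Finset.mem_inter.2 ⟨hxZ, hxK⟩⟩
  have hQind : M.Indep ((Z' ∩ K : Finset α) : Set α) := by
    apply hZc.ssubset_indep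
    rw [ssubset_iff_subset_ne]
    refine ⟨by exact_mod_cast Finset.inter_subset_left, fun h => ?_⟩
    have h1 : y ∈ ((Z' ∩ K : Finset α) : Set α) := by rw [h]; exact hyZ
    exact hyK (Finset.mem_inter.1 h1).2
  obtain ⟨f, hf, hfQ⟩ := exists_odd M (Z' ∩ K) hQne hQind
  -- the functional
  let lam' : (K → ZMod 2) →ₗ[ZMod 2] ZMod 2 :=
    ∑ z : K, (if (z : α) ∈ Z' then (1 : ZMod 2) else 0) •
      LinearMap.proj (R := ZMod 2) (φ := fun _ : K => ZMod 2) z
  have hlam : ∀ g : α → ZMod 2, lam' (rho K g) = ∑ z ∈ Z' ∩ K, g z := by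
    intro g
    simp only [lam', rho, LinearMap.sum_apply, LinearMap.smul_apply, LinearMap.proj_apply,
      LinearMap.funLeft_apply, smul_eq_mul]
    rw [Finset.sum_coe_sort K (fun z => (if z ∈ Z' then (1 : ZMod 2) else 0) * g z)]
    rw [Finset.inter_comm, ← Finset.filter_mem_eq_inter, Finset.sum_filter]
    refine Finset.sum_congr rfl fun z _ => ?_
    split_ifs <;> simp
  have hfR : rho K f ∈ Submodule.span (ZMod 2) (rho K '' (R : Set (α → ZMod 2))) := by
    rw [← h𝓑] at hf
    have h1 : Submodule.span (ZMod 2) 𝓑 ≤ (Submodule.span (ZMod 2)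
        (rho K '' (R : Set (α → ZMod 2)))).comap (rho K) := by
      rw [Submodule.span_le]
      exact fun D hD => hcase D hD
    exact h1 hf
  obtain ⟨D, hDR, hD⟩ : ∃ D ∈ R, ∑ z ∈ Z' ∩ K, D z ≠ 0 := by
    by_contra hcon
    push Not at hcon
    have h1 : Submodule.span (ZMod 2) (rho K '' (R : Set (α → ZMod 2))) ≤ LinearMap.ker lam' := by
      rw [Submodule.span_le]
      rintro _ ⟨D, hD, rfl⟩
      show lam' (rho K D) = 0
      rw [hlam]
      exact hcon D hD
    have h2 : lam' (rho K f) = 0 := h1 hfR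
    rw [hlam, hfQ] at h2
    exact one_ne_zero h2
  have hDc : D ∈ cocycleSpace M := by
    rw [← h𝓑]
    exact Submodule.subset_span (hR hDR)
  have hsum := circuit_cocycle M hM Z' hZc D hDc
  rw [← Finset.sum_inter_add_sum_sdiff Z' K (fun z => D z)] at hsum
  have h0 : ∑ z ∈ Z' \ K, D z = 0 := by
    refine Finset.sum_eq_zero fun z hz => ?_
    rw [Finset.mem_sdiff] at hz
    by_contra hDz
    exact hz.2 (hdis D hDR z (hZS hz.1) hDz)
  rw [h0, add_zero] at hsum
  exact hD hsum

theorem fam_card {α : Type} [Fintype α] (M : Matroid α) (hM : Binary M)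
    (𝓑 : Set (α → ZMod 2)) (h𝓑 : Submodule.span (ZMod 2) 𝓑 = cocycleSpace M) (L : ℕ)
    (hL : ∀ D ∈ 𝓑, (supp D).card ≤ L) (k n : ℕ) :
    ∀ (K : Finset α) (R : Finset (α → ZMod 2)), K.Nonempty → (R : Set _) ⊆ 𝓑 →
      LinearIndepOn (ZMod 2) (rho K) (R : Set (α → ZMod 2)) → k ≤ R.card + n →
      (Fam M k K R).card ≤ (2 ^ L) ^ n := by
  induction n with
  | zero =>
    intro K R _ _ hRi hk
    have hsub : Fam M k K R ⊆ {K} := by
      intro S hS
      rw [Fam, Finset.mem_filter] at hS
      obtain ⟨-, -, hKS, hcard, -, -⟩ := hS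
      rw [Finset.mem_singleton]
      have h1 := card_le_of_indep K R hRi
      exact (Finset.eq_of_subset_of_card_le hKS (by omega)).symm
    have := Finset.card_le_card hsub
    simpa using this
  | succ n ih =>
    intro K R hK hR hRi hk
    by_cases hcase : ∀ D ∈ 𝓑, rho K D ∈ Submodule.span (ZMod 2) (rho K '' (R : Set (α → ZMod 2)))
    · have h1 := Finset.card_le_card (fam_subset M hM 𝓑 h𝓑 k K hK R hR hcase)
      rw [Finset.card_singleton] at h1
      exact h1.trans (Nat.one_le_pow _ _ (by positivity))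
    · push Not at hcase
      obtain ⟨D, hD𝓑, hD⟩ := hcase
      have hDR : D ∉ R := by
        intro h
        exact hD (Submodule.subset_span (mem_image_of_mem _ h))
      have hins : LinearIndepOn (ZMod 2) (rho K) ((insert D R : Finset (α → ZMod 2)) : Set _) := by
        rw [Finset.coe_insert, linearIndepOn_insert (by exact_mod_cast hDR)]
        exact ⟨hRi, hD⟩
      have hbig : ∀ W : Finset α, LinearIndepOn (ZMod 2) (rho (K ∪ W))
          ((insert D R : Finset (α → ZMod 2)) : Set _) := by
        intro W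
        have hcomp : ∃ g : ((K ∪ W : Finset α) → ZMod 2) →ₗ[ZMod 2] (K → ZMod 2),
            ∀ f, rho K f = g (rho (K ∪ W) f) := by
          refine ⟨LinearMap.funLeft (ZMod 2) (ZMod 2)
            (fun x : K => (⟨x, Finset.mem_union_left W x.2⟩ : (K ∪ W : Finset α))), fun f => ?_⟩
          rfl
        obtain ⟨g, hg⟩ := hcomp
        have h1 : LinearIndepOn (ZMod 2) (g ∘ rho (K ∪ W))
            ((insert D R : Finset (α → ZMod 2)) : Set _) := by
          have : (g ∘ rho (K ∪ W) : (α → ZMod 2) → (K → ZMod 2)) = rho K := by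
            funext f; exact (hg f).symm
          rw [this]; exact hins
        exact LinearIndependent.of_comp g h1
      have hR' : ((insert D R : Finset (α → ZMod 2)) : Set _) ⊆ 𝓑 := by
        rw [Finset.coe_insert]
        exact insert_subset hD𝓑 hR
      have hcover : Fam M k K R ⊆ (supp D).powerset.biUnion
          (fun W => Fam M k (K ∪ W) (insert D R)) := by
        intro S hS
        rw [Fam, Finset.mem_filter] at hS
        obtain ⟨-, hSE, hKS, hcard, hconn, hdis⟩ := hS
        rw [Finset.mem_biUnion]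
        refine ⟨supp D ∩ S, Finset.mem_powerset.2 Finset.inter_subset_left, ?_⟩
        rw [Fam, Finset.mem_filter]
        refine ⟨Finset.mem_univ _, hSE, Finset.union_subset hKS Finset.inter_subset_right, hcard,
          hconn, fun D' hD' x hxS hx => ?_⟩
        rcases Finset.mem_insert.1 hD' with rfl | hD''
        · refine Finset.mem_union_right _ (Finset.mem_inter.2 ⟨?_, hxS⟩)
          exact Finset.mem_filter.2 ⟨Finset.mem_univ _, hx⟩
        · exact Finset.mem_union_left _ (hdis D' hD'' x hxS hx)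
      calc (Fam M k K R).card
          ≤ ((supp D).powerset.biUnion (fun W => Fam M k (K ∪ W) (insert D R))).card :=
            Finset.card_le_card hcover
        _ ≤ ∑ W ∈ (supp D).powerset, (Fam M k (K ∪ W) (insert D R)).card :=
            Finset.card_biUnion_le
        _ ≤ ∑ _W ∈ (supp D).powerset, (2 ^ L) ^ n := by
            refine Finset.sum_le_sum fun W _ => ?_
            refine ih (K ∪ W) (insert D R) (hK.mono Finset.subset_union_left) hR' (hbig W) ?_
            rw [Finset.card_insert_of_notMem hDR]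
            omega
        _ = 2 ^ (supp D).card * (2 ^ L) ^ n := by
            rw [Finset.sum_const, Finset.card_powerset, smul_eq_mul]
        _ ≤ 2 ^ L * (2 ^ L) ^ n :=
            Nat.mul_le_mul_right _ (Nat.pow_le_pow_right (by norm_num) (hL D hD𝓑))
        _ = (2 ^ L) ^ (n + 1) := by ring

theorem bound {α : Type} [Fintype α] (M : Matroid α) (hM : Binary M) (e : α) (k : ℕ) :
    Nk M e k ≤ (2 ^ lam M) ^ k := by
  have hne : {L : ℕ | ∃ (ι : Type) (b : Module.Basis ι (ZMod 2) (cocycleSpace M)),
      ∀ i, (supp (b i : α → ZMod 2)).card ≤ L}.Nonempty := by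
    let b := Module.finBasis (ZMod 2) (cocycleSpace M)
    exact ⟨Fintype.card α, _, b, fun i => Finset.card_le_univ _⟩
  obtain ⟨ι, b, hb⟩ := Nat.sInf_mem hne
  have hspan : Submodule.span (ZMod 2) (range fun i => (b i : α → ZMod 2)) = cocycleSpace M := by
    have h1 := congrArg (Submodule.map (cocycleSpace M).subtype) b.span_eq
    rw [Submodule.map_span, Submodule.map_top, Submodule.range_subtype, ← range_comp] at h1
    exact h1
  have h1 := fam_card M hM (range fun i => (b i : α → ZMod 2)) hspan (lam M)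
    (by rintro _ ⟨i, rfl⟩; exact hb i) k k {e} ∅ (Finset.singleton_nonempty e)
    (by simp) (by simp) (by simp)
  refine le_trans (Finset.card_le_card ?_) h1
  intro S hS
  rw [Finset.mem_filter] at hS
  obtain ⟨-, hSE, heS, hcard, hconn⟩ := hS
  rw [Fam, Finset.mem_filter]
  exact ⟨Finset.mem_univ _, hSE, Finset.singleton_subset_iff.2 heS, hcard, hconn,
    fun D hD => absurd hD (Finset.notMem_empty D)⟩

/-- **Q1 is true**, with `C(L) = 2 ^ L`: for every binary matroid `M` on a finite set, every
element `e` and every `k ≥ 1`, `N_k(M, e) ≤ C(Λ~(M)) ^ k`. -/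
theorem result : ∃ C : ℕ → ℝ, (∀ L, C L = 2 ^ L) ∧ (∀ L, 0 < C L) ∧
    ∀ (α : Type) [Fintype α] (M : Matroid α), Binary M → ∀ e ∈ M.E, ∀ k : ℕ, 1 ≤ k →
      (Nk M e k : ℝ) ≤ C (lam M) ^ k := by
  refine ⟨fun L => 2 ^ L, fun _ => rfl, fun L => by positivity, ?_⟩
  intro α _ M hM e _ k _
  have h := bound M hM e k
  calc (Nk M e k : ℝ) ≤ (((2 ^ lam M) ^ k : ℕ) : ℝ) := by exact_mod_cast h
    _ = (2 ^ lam M) ^ k := by push_cast; rfl

end Pool.Agent.Results.MP_0dc42e_co.ConnectedRestrictions
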